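import Pool.Agent.H17.Xor2

set_option autoImplicit false

namespace Pool.Agent.Results.MP_02be1f_lc.LimitPoint

open MeasureTheory Filter Topology Pool.Agent.H17.Xor

def T (τ : ℕ → Bool) : ℕ → ℕ
  | 0 => 0
  | m + 1 => T τ m + if τ m then 2 ^ m else 0

lemma T_lt (τ : ℕ → Bool) (m : ℕ) : T τ m < 2 ^ m := by
  induction m with
  | zero => simp [T]
  | succ m ih => rw [T, pow_succ]; split_ifs <;> omega

lemma T_mod (τ : ℕ → Bool) (j m : ℕ) (h : j ≤ m) : T τ m ≡ T τ j [MOD 2 ^ j] := by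
  induction m, h using Nat.le_induction with
  | base => rfl
  | succ m h ih =>
    rw [T]
    have : (if τ m then 2 ^ m else 0) ≡ 0 [MOD 2 ^ j] := by
      split_ifs
      · exact (Nat.modEq_zero_iff_dvd).2 (pow_dvd_pow 2 h)
      · rfl
    simpa using ih.add this

noncomputable def nu (τ : ℕ → Bool) : Measure (ℤ → Bool) := M id (fun j => z (id j) (T τ j))

lemma conv (τ : ℕ → Bool) (w : List Bool) :
    Tendsto (fun m => ((M id (fun j => z (id j) 0)).map F^[T τ m + 2 ^ m]).real (cyl w)) atTop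
      (𝓝 ((nu τ).real (cyl w))) := by
  rw [tendsto_iff_norm_sub_tendsto_zero]
  refine squeeze_zero (fun _ => norm_nonneg _) (fun m => ?_)
    (tendsto_pow_atTop_nhds_zero_of_lt_one (r := (1 / 2 : ℝ)) (by norm_num) (by norm_num))
  rw [M_iter, nu, M_real _ _ _ (cyl_meas w), M_real _ _ _ (cyl_meas w)]
  obtain ⟨a1, a2⟩ := tail _ (fun j => fr_bd (id j) (z (id j) (T τ m + 2 ^ m)) _ (cyl_meas w)) m
  obtain ⟨b1, b2⟩ := tail _ (fun j => fr_bd (id j) (z (id j) (T τ j)) _ (cyl_meas w)) m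
  have e : ∑ j ∈ Finset.range m, (1 / 2 : ℝ) ^ (j + 1) * fr (id j) (z (id j) (T τ m + 2 ^ m)) (cyl w)
      = ∑ j ∈ Finset.range m, (1 / 2 : ℝ) ^ (j + 1) * fr (id j) (z (id j) (T τ j)) (cyl w) := by
    refine Finset.sum_congr rfl fun j hj => ?_
    have h := (Finset.mem_range.1 hj).le
    have : T τ m + 2 ^ m ≡ T τ j [MOD 2 ^ j] := by
      simpa using (T_mod τ j m h).add ((Nat.modEq_zero_iff_dvd).2 (pow_dvd_pow 2 h))
    simp only [fr, id, O_z _ _ _ this]
  rw [Real.norm_eq_abs, abs_le]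
  constructor <;> linarith

lemma nu_inj (τ τ' : ℕ → Bool) (h : ∀ w, (nu τ).real (cyl w) = (nu τ').real (cyl w)) : τ = τ' := by
  have A : ∀ k, T τ' k = T τ k := by
    intro k
    have a := M_pos id (T τ) k _ (cyl_meas (U k (T τ k)))
    have b : 0 < (1 / 2 : ℝ) ^ (k + 1) * fr k (z k (T τ k)) (cyl (U k (T τ k))) :=
      mul_pos (by positivity) (fr_pos _ _)
    have c : (nu τ').real (cyl (U k (T τ k))) ≠ 0 := by rw [← h]; exact (b.trans_le a).ne'
    rw [nu, M_real _ _ _ (cyl_meas _)] at c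
    have : ∃ j, fr j (z j (T τ' j)) (cyl (U k (T τ k))) ≠ 0 := by
      by_contra hn
      push Not at hn
      simp [hn] at c
    obtain ⟨j, hj⟩ := this
    obtain ⟨rfl, e⟩ := fr_U _ _ _ _ hj
    exact e.eq_of_lt_of_lt (T_lt _ _) (T_lt _ _)
  funext k
  have a := A (k + 1)
  rw [T, T, A k] at a
  have p : 0 < 2 ^ k := by positivity
  cases h1 : τ k <;> cases h2 : τ' k <;> simp [h1, h2] at a ⊢

theorem result : ∃ μ : Measure (ℤ → Bool), IsProbabilityMeasure μ ∧ ShiftInv μ ∧ CompMeasure μ ∧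
    ∃ ν : Measure (ℤ → Bool), IsProbabilityMeasure ν ∧ ShiftInv ν ∧
      (∃ φ : ℕ → ℕ, StrictMono φ ∧ ∀ w : List Bool,
        Tendsto (fun m => (μ.map F^[φ m]).real (cyl w)) atTop (𝓝 (ν.real (cyl w)))) ∧
      ¬ CompMeasure ν := by
  refine ⟨M id (fun j => z (id j) 0), inferInstance, M_inv id (fun _ => 0), M_comp id .id, ?_⟩
  by_contra hn
  push Not at hn
  have H : ∀ τ, CompMeasure (nu τ) := fun τ =>
    hn _ (by unfold nu; infer_instance) (M_inv id (T τ)) ⟨fun m => T τ m + 2 ^ m,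
      strictMono_nat_of_lt_succ fun m => by
        have := T_lt τ m
        rw [pow_succ]; omega, conv τ⟩
  choose f hf hb using H
  have hc := fun τ => Nat.Partrec.Code.exists_code.1 (hf τ)
  choose c hc using hc
  have inj : Function.Injective c := by
    intro τ τ' e
    have e1 := hc τ
    rw [e, hc τ'] at e1
    have e2 : f τ = f τ' := by
      funext p
      have := congrFun e1 (Encodable.encode p)
      simpa using this.symm
    refine nu_inj τ τ' fun w => ?_
    have : ∀ k : ℕ, |(nu τ).real (cyl w) - (nu τ').real (cyl w)| ≤ 2 * (1 / 2) ^ k := by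
      intro k
      have a := abs_le.1 (hb τ w k)
      have b := abs_le.1 (hb τ' w k)
      rw [e2] at a
      rw [abs_le]; constructor <;> linarith [a.1, a.2, b.1, b.2]
    have l := (tendsto_pow_atTop_nhds_zero_of_lt_one (r := (1 / 2 : ℝ)) (by norm_num)
      (by norm_num)).const_mul 2
    have := ge_of_tendsto' l this
    rw [mul_zero] at this
    exact sub_eq_zero.1 (abs_nonpos_iff.1 this)
  have := inj.countable
  obtain ⟨e, he⟩ := exists_surjective_nat (ℕ → Bool)
  obtain ⟨n, hn⟩ := he (fun n => !(e n n))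
  have := congrFun hn n
  simp at this

end Pool.Agent.Results.MP_02be1f_lc.LimitPoint
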