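import Pool.Agent.H17.Xor2

set_option autoImplicit false

namespace Pool.Agent.Results.MP_02be1f_lc.LimitSet

open MeasureTheory Filter Topology Pool.Agent.H17.Xor Nat.Partrec

/-- the limit language of the measure under the XOR automaton -/
def limLang (μ : Measure (ℤ → Bool)) : Set (List Bool) :=
  {w | ¬ Tendsto (fun n => (μ.map F^[n]).real (cyl w)) atTop (𝓝 0)}

def g (j : ℕ) : ℕ :=
  cond (Code.evaln j.unpair.2 (Denumerable.ofNat Code j.unpair.1) 0).isSome (j.unpair.1 + 1) 0

lemma g_prim : Primrec g := by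
  have a : Primrec fun j : ℕ => j.unpair.1 := Primrec.fst.comp .unpair
  have b : Primrec fun j : ℕ => j.unpair.2 := Primrec.snd.comp .unpair
  exact Primrec.cond (Primrec.option_isSome.comp (Code.primrec_evaln.comp
    ((b.pair ((Primrec.ofNat Code).comp a)).pair (.const 0)))) (Primrec.succ.comp a) (.const 0)

lemma g_range (c : Code) : (∃ j, g j = Encodable.encode c + 1) ↔ (c.eval 0).Dom := by
  rw [Part.dom_iff_mem]
  simp only [Code.evaln_complete]
  constructor
  · rintro ⟨j, hj⟩
    unfold g at hj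
    cases h : (Code.evaln j.unpair.2 (Denumerable.ofNat Code j.unpair.1) 0).isSome
    · simp [h] at hj
    · simp only [h, cond_true, add_left_inj] at hj
      rw [hj, Denumerable.ofNat_encode] at h
      obtain ⟨x, hx⟩ := Option.isSome_iff_exists.1 h
      exact ⟨x, _, hx⟩
  · rintro ⟨x, s, hx⟩
    refine ⟨Nat.pair (Encodable.encode c) s, ?_⟩
    have : Code.evaln s c 0 = some x := hx
    simp [g, this]

lemma mem_iff (k : ℕ) : U k 0 ∈ limLang (M g (fun j => z (g j) 0)) ↔ ∃ j, g j = k := by
  simp only [limLang, Set.mem_ofPred_eq, M_iter]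
  constructor
  · intro h
    by_contra hn
    apply h
    have : ∀ n j, fr (g j) (z (g j) n) (cyl (U k 0)) = 0 := fun n j => by
      by_contra hc
      exact hn ⟨j, (fr_U _ _ _ _ hc).1⟩
    simp [M_real _ _ _ (cyl_meas _), this]
  · rintro ⟨j, rfl⟩ h
    have b : 0 < (1 / 2 : ℝ) ^ (j + 1) * fr (g j) (z (g j) 0) (cyl (U (g j) 0)) :=
      mul_pos (by positivity) (fr_pos _ _)
    obtain ⟨N, hN⟩ := eventually_atTop.1 (h.eventually (gt_mem_nhds b))
    have a := M_pos g (fun _ => N * 2 ^ g j) j _ (cyl_meas (U (g j) 0))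
    have e : N * 2 ^ g j ≡ 0 [MOD 2 ^ g j] := (Nat.modEq_zero_iff_dvd).2 (dvd_mul_left _ _)
    have := hN (N * 2 ^ g j) (Nat.le_mul_of_pos_right _ (by positivity))
    simp only [fr, O_z _ _ _ e] at a this
    linarith

theorem result : ∃ μ : Measure (ℤ → Bool), IsProbabilityMeasure μ ∧ ShiftInv μ ∧ CompMeasure μ ∧
    ¬ ComputablePred (fun w => w ∈ limLang μ) := by
  refine ⟨M g (fun j => z (g j) 0), inferInstance, M_inv g (fun _ => 0), M_comp g g_prim,
    fun h => ComputablePred.halting_problem 0 ?_⟩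
  have pU : Primrec fun k => U k 0 :=
    (Primrec.list_map (Primrec.list_range.comp (Primrec.pred.comp (Primrec.nat_mul.comp (.const 6)
      (p_pow.comp (.const 2) .id)))) p_yN).of_eq fun k => by simp [U, z, y_nat]
  obtain ⟨f, hf, e⟩ := ComputablePred.computable_iff.1 h
  refine ComputablePred.computable_iff.2 ⟨fun c => f (U (Encodable.encode c + 1) 0),
    hf.comp (pU.comp (Primrec.succ.comp .encode)).to_comp, ?_⟩
  funext c
  rw [← congrFun e, mem_iff, g_range]

end Pool.Agent.Results.MP_02be1f_lc.LimitSet
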